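import Pool.Agent.Zk90.DTN.Diag

/-!
# Closed and perfect images of `δθ`-refinable spaces need not be `δθ`-refinable

In ZFC there are a `δθ`-refinable (submetalindelöf) `T₁` space `X` and a perfect mapping with
finite fibres of `X` onto a `T₁` space `Y` which is not `δθ`-refinable.
-/

set_option autoImplicit false

namespace Pool.Agent.Results.MP_17359d_gt.FiniteToOneCounterexample

open Set Topology Cardinal

/-- The cover `𝒰` of `X` has a sequence of open covers of `X`, each refining `𝒰`, such that every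
point of `X` lies in at most countably many members of one of them. -/
def HasDeltaThetaRefinement {X : Type} [TopologicalSpace X] (𝒰 : Set (Set X)) : Prop :=
  ∃ 𝒱 : ℕ → Set (Set X),
    (∀ n, (∀ V ∈ 𝒱 n, IsOpen V) ∧ ⋃₀ 𝒱 n = Set.univ ∧ ∀ V ∈ 𝒱 n, ∃ U ∈ 𝒰, V ⊆ U) ∧
    ∀ x, ∃ n, {V ∈ 𝒱 n | x ∈ V}.Countable

/-- A space is `δθ`-refinable (submetalindelöf) if every open cover has such a sequence. -/
def DeltaThetaRefinable (X : Type) [TopologicalSpace X] : Prop :=
  ∀ 𝒰 : Set (Set X), (∀ U ∈ 𝒰, IsOpen U) → ⋃₀ 𝒰 = Set.univ → HasDeltaThetaRefinement 𝒰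

/-- A closed mapping: a continuous surjection sending closed sets to closed sets. -/
structure ClosedMapping {X Y : Type} [TopologicalSpace X] [TopologicalSpace Y]
    (f : X → Y) : Prop where
  continuous : Continuous f
  surjective : Function.Surjective f
  isClosedMap : IsClosedMap f

/-- A perfect mapping: a closed mapping with compact fibres. -/
structure PerfectMapping {X Y : Type} [TopologicalSpace X] [TopologicalSpace Y]
    (f : X → Y) : Prop extends ClosedMapping f where
  isCompact_fiber : ∀ y : Y, IsCompact (f ⁻¹' {y})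

/-- **Closed and perfect images of `δθ`-refinable spaces.** There are a `δθ`-refinable `T₁` space
`X` and a perfect mapping `f`, all of whose fibres are finite, of `X` onto a `T₁` space `Y` which is
not `δθ`-refinable; some open cover of `Y` of cardinality at most `ℵ_ω` has no sequence of
refinements as in the definition.  In particular neither closed nor perfect mappings preserve
`δθ`-refinability. -/
theorem result :
    (∃ (X Y : Type) (_ : TopologicalSpace X) (_ : TopologicalSpace Y) (f : X → Y),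
      T1Space X ∧ T1Space Y ∧ PerfectMapping f ∧ (∀ y, (f ⁻¹' {y}).Finite) ∧
      DeltaThetaRefinable X ∧ ¬ DeltaThetaRefinable Y ∧
      ∃ 𝒰 : Set (Set Y), (∀ U ∈ 𝒰, IsOpen U) ∧ ⋃₀ 𝒰 = Set.univ ∧
        #𝒰 ≤ ℵ_ Ordinal.omega0.{0} ∧ ¬ HasDeltaThetaRefinement 𝒰) ∧
    (¬ ∀ (X Y : Type) [TopologicalSpace X] [TopologicalSpace Y] (f : X → Y),
      ClosedMapping f → DeltaThetaRefinable X → DeltaThetaRefinable Y) ∧
    (¬ ∀ (X Y : Type) [TopologicalSpace X] [TopologicalSpace Y] (f : X → Y),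
      PerfectMapping f → DeltaThetaRefinable X → DeltaThetaRefinable Y) := by
  have main : ∃ (X Y : Type) (_ : TopologicalSpace X) (_ : TopologicalSpace Y) (f : X → Y),
      T1Space X ∧ T1Space Y ∧ PerfectMapping f ∧ (∀ y, (f ⁻¹' {y}).Finite) ∧
      DeltaThetaRefinable X ∧ ¬ DeltaThetaRefinable Y ∧
      ∃ 𝒰 : Set (Set Y), (∀ U ∈ 𝒰, IsOpen U) ∧ ⋃₀ 𝒰 = Set.univ ∧
        #𝒰 ≤ ℵ_ Ordinal.omega0.{0} ∧ ¬ HasDeltaThetaRefinement 𝒰 := by
    let L : Type := (ℵ_ Ordinal.omega0.{0}).out
    have hL : #L = ℵ_ Ordinal.omega0.{0} := mk_out _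
    have hinf : Infinite L := by
      rw [infinite_iff, hL]
      exact aleph0_le_aleph _
    have hcov : ∀ U ∈ range (Zk90.DTN.UU (L := L)), IsOpen U := by
      rintro _ ⟨l, rfl⟩
      exact Zk90.DTN.isOpen_UU l
    have hno : ¬ HasDeltaThetaRefinement (range (Zk90.DTN.UU (L := L))) := by
      rintro ⟨𝒱, h1, h2⟩
      exact Zk90.DTN.no_refinement hL.ge 𝒱 h1 h2
    refine ⟨Zk90.DTN.XPt L, Zk90.DTN.YPt L, inferInstance, inferInstance, Zk90.DTN.proj,
      inferInstance, inferInstance,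
      ⟨⟨Zk90.DTN.proj_continuous, Zk90.DTN.proj_surjective, Zk90.DTN.proj_isClosedMap⟩,
        fun y => (Zk90.DTN.fiber_finite y).isCompact⟩,
      Zk90.DTN.fiber_finite, Zk90.DTN.dtr_XPt,
      fun h => hno (h _ hcov Zk90.DTN.cover_UU), _, hcov, Zk90.DTN.cover_UU, ?_, hno⟩
    exact mk_range_le.trans hL.le
  refine ⟨main, fun h => ?_, fun h => ?_⟩
  · obtain ⟨X, Y, _, _, f, -, -, hf, -, hX, hY, -⟩ := main
    exact hY (h X Y f hf.toClosedMapping hX)
  · obtain ⟨X, Y, _, _, f, -, -, hf, -, hX, hY, -⟩ := main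
    exact hY (h X Y f hf hX)

end Pool.Agent.Results.MP_17359d_gt.FiniteToOneCounterexample
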